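import Pool.Agent.K3h10.MS.RepA

/-!
# The index of the Fitting subgroup is bounded by the numbers of zeros and the index of a solvable
normal subgroup

Extension of `Pool.Agent.K3h10.MS.index_bound` (solvable groups) to all finite groups.
-/

set_option autoImplicit false

namespace Run7.h702.ZF

open Pool.Agent.K3h10.MS Pool.Agent.Helper218.NV

/-- A variant of `rep_input` which keeps the character. -/
theorem rep_input' {G : Type} [Group G] [Finite G] (F : Subgroup G)
    [hFnor : F.Normal]
    (hFn : Group.IsNilpotent F) (hFmax : ∀ N : Subgroup G, N.Normal → Group.IsNilpotent N → N ≤ F)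
    (p : ℕ) [hp : Fact p.Prime] (P : Subgroup (G ⧸ F)) (hP : P.Normal) (hPp : IsPGroup p P)
    (A : Subgroup (G ⧸ F)) (hAP : A ≤ P) (hab : ∀ x ∈ A, ∀ y ∈ A, x * y = y * x) :
    ∃ C : Subgroup (G ⧸ F), A ⊓ C = ⊥ ∧
      ∃ (V : Type) (_ : AddCommGroup V) (_ : Module ℂ V) (_ : FiniteDimensional ℂ V)
        (ρ : Representation ℂ G V), ρ.IsIrreducible ∧
        ∀ g : G, (∀ h : G ⧸ F, h * (QuotientGroup.mk' F g) * h⁻¹ ∉ C) → ρ.character g = 0 := by
  classical
  have hfin : Finite (F →* ℂˣ) := hom_finite
  set n := ordCompl[p] (Nat.card F) with hn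
  have hncop : n.Coprime p := (Nat.coprime_ordCompl hp.out Nat.card_pos.ne').symm
  let W : Subgroup (F →* ℂˣ) :=
    { carrier := {l | ∀ x, l x ^ n = 1}
      one_mem' := fun x => one_pow n
      mul_mem' := by
        intro a b ha hb x
        rw [MonoidHom.mul_apply, mul_pow, ha x, hb x, one_mul]
      inv_mem' := by
        intro a ha x
        rw [MonoidHom.inv_apply, inv_pow, ha x, inv_one] }
  have hWm : ∀ l : F →* ℂˣ, l ∈ W ↔ ∀ x, l x ^ n = 1 := fun _ => Iff.rfl
  have hW : ∀ (g : G), ∀ l ∈ W, l.comp (MulAut.conjNormal g : MulAut F).toMonoidHom ∈ W := by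
    intro g l hl
    rw [hWm] at hl ⊢
    exact fun x => hl (MulAut.conjNormal g x)
  let φ := actW W hW
  let J : Subgroup (MulAut W) := (A.comap (QuotientGroup.mk' F)).map φ
  have hFker : ∀ f ∈ F, φ f = 1 := by
    intro f hf
    ext1 l
    change actW W hW f l = l
    rw [actW_fix]
    intro x
    have h1 : (MulAut.conjNormal f : MulAut F) x = ⟨f, hf⟩ * x * ⟨f, hf⟩⁻¹ := by
      apply Subtype.ext
      rw [MulAut.conjNormal_apply]
      rfl
    rw [h1, map_mul, map_mul, map_inv, mul_comm, inv_mul_cancel_left]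
  have hJab : ∀ a ∈ J, ∀ b ∈ J, a * b = b * a := by
    rintro _ ⟨a, ha, rfl⟩ _ ⟨b, hb, rfl⟩
    have h1 := hab _ ha _ hb
    rw [← map_mul, ← map_mul] at h1
    have h2 : (a * b)⁻¹ * (b * a) ∈ F := QuotientGroup.eq.1 h1
    have h3 := hFker _ h2
    rw [map_mul, map_inv, inv_mul_eq_one] at h3
    rw [← map_mul, ← map_mul, h3]
  have hJp : IsPGroup p J := by
    rintro ⟨_, a, ha, rfl⟩
    obtain ⟨k, hk⟩ := hPp ⟨_, hAP ha⟩
    refine ⟨k, ?_⟩
    apply Subtype.ext
    rw [Subgroup.coe_pow, Subgroup.coe_one, ← map_pow]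
    apply hFker
    have h1 := congrArg Subtype.val hk
    rw [Subgroup.coe_pow, Subgroup.coe_one, ← map_pow] at h1
    exact (QuotientGroup.eq_one_iff _).1 h1
  have hFinA : Finite (MulAut W) := Finite.of_injective (fun f : MulAut W => (f : W → W))
    (fun a b h => MulEquiv.ext (fun x => congrFun h x))
  have hcop : (Nat.card J).Coprime (Nat.card W) := by
    obtain ⟨k, hk⟩ := IsPGroup.iff_card.1 hJp
    rw [hk]
    apply Nat.Coprime.pow_left
    refine coprime_of_pow n p hncop (fun x => ?_)
    apply Subtype.ext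
    rw [Subgroup.coe_pow, Subgroup.coe_one]
    refine MonoidHom.ext fun y => ?_
    rw [MonoidHom.pow_apply, MonoidHom.one_apply]
    exact x.2 y
  obtain ⟨l, hl⟩ := generic J hJab hcop
  -- the stabiliser
  let St : Subgroup G := (MulAction.stabilizer (MulAut W) l).comap φ
  have hSt : ∀ g, g ∈ St ↔ φ g l = l := fun _ => Iff.rfl
  have hFSt : F ≤ St := by
    intro f hf
    rw [hSt, hFker f hf]
    rfl
  refine ⟨St.map (QuotientGroup.mk' F), ?_, ?_⟩
  · rw [eq_bot_iff]
    rintro x ⟨hxA, g, hg, rfl⟩
    have h1 : φ g = 1 := hl _ ⟨g, hxA, rfl⟩ hg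
    have h2 : (P.comap (QuotientGroup.mk' F)) ⊓ φ.ker ≤ F := by
      apply faithful F hFn hFmax p
      · intro f hf
        refine ⟨?_, hFker f hf⟩
        have : (QuotientGroup.mk' F) f = 1 := (QuotientGroup.eq_one_iff f).2 hf
        change (QuotientGroup.mk' F) f ∈ P
        rw [this]
        exact P.one_mem
      · rintro d ⟨hd, -⟩
        obtain ⟨k, hk⟩ := hPp ⟨_, hd⟩
        refine ⟨k, ?_⟩
        have h1 := congrArg Subtype.val hk
        rw [Subgroup.coe_pow, Subgroup.coe_one, ← map_pow] at h1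
        exact (QuotientGroup.eq_one_iff _).1 h1
      · rintro d ⟨-, hd⟩ l' hl' f
        have h3 : φ d ⟨l', hl'⟩ = ⟨l', hl'⟩ := by
          rw [MonoidHom.mem_ker.1 hd]
          rfl
        exact (actW_fix W hW d ⟨l', hl'⟩).1 h3 f
    rw [Subgroup.mem_bot]
    exact (QuotientGroup.eq_one_iff g).2 (h2 ⟨hAP hxA, h1⟩)
  · obtain ⟨V, i1, i2, i3, ρ, hρ, hzero, -⟩ := exists_char_over F l.1
    refine ⟨V, i1, i2, i3, ρ, hρ, ?_⟩
    intro g hx
    apply hzero
    intro t
    by_contra hcon
    push Not at hcon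
    apply hx (QuotientGroup.mk' F t⁻¹)
    refine ⟨t⁻¹ * g * t, ?_, ?_⟩
    · change φ _ l = l
      exact (actW_fix W hW _ l).2 hcon
    · rw [map_mul, map_mul, ← map_inv, inv_inv]

/-- If no element of the second Fitting subgroup is a zero of an irreducible character, then the
second Fitting subgroup is the first one. -/
theorem fit2_bot {G : Type} [Group G] [Finite G] [hFn : (fitting G).Normal]
    (h : ∀ g : G, QuotientGroup.mk' (fitting G) g ∈ fitting (G ⧸ fitting G) → Nonvanishing g) :
    fitting (G ⧸ fitting G) = ⊥ := by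
  obtain ⟨-, hnil, hmax⟩ := fitting_spec G
  obtain ⟨hKn, hKnil, hKmax⟩ := fitting_spec (G ⧸ fitting G)
  by_contra hne
  set K := fitting (G ⧸ fitting G) with hK
  -- a prime divisor
  have hcard : Nat.card K ≠ 1 := fun hc => hne (Subgroup.card_eq_one.1 hc)
  obtain ⟨p, hp, hpd⟩ := Nat.exists_prime_and_dvd hcard
  have : Fact p.Prime := ⟨hp⟩
  obtain ⟨S⟩ : Nonempty (Sylow p K) := inferInstance
  have hSn : (S : Subgroup K).Normal := inferInstance
  have hSc : (S : Subgroup K).Characteristic := Sylow.characteristic_of_normal S hSn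
  have hSp : IsPGroup p (S : Subgroup K) := S.isPGroup'
  have hSne : Nontrivial (S : Subgroup K) := by
    rw [Subgroup.nontrivial_iff_ne_bot]
    intro hb
    have := S.dvd_card_of_dvd_card hpd
    rw [hb, Subgroup.card_bot] at this
    exact hp.one_lt.ne' (Nat.dvd_one.1 this)
  let P : Subgroup (G ⧸ fitting G) := (S : Subgroup K).map K.subtype
  have hPn : P.Normal := ConjAct.normal_of_characteristic_of_normal
  have hPp : IsPGroup p P := hSp.map _
  have hPne : Nontrivial P := by
    rw [Subgroup.nontrivial_iff_ne_bot]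
    intro hb
    have h1 : (S : Subgroup K) = ⊥ := (Subgroup.map_eq_bot_iff_of_injective _
      (Subgroup.subtype_injective _)).1 hb
    rw [Subgroup.nontrivial_iff_ne_bot] at hSne
    exact hSne h1
  let A : Subgroup (G ⧸ fitting G) := (Subgroup.center P).map P.subtype
  have hAn : A.Normal := ConjAct.normal_of_characteristic_of_normal
  have hAP : A ≤ P := Subgroup.map_subtype_le _
  have hAab : ∀ x ∈ A, ∀ y ∈ A, x * y = y * x := by
    rintro _ ⟨x, hx, rfl⟩ _ ⟨y, -, rfl⟩
    have := (Subgroup.mem_center_iff.1 hx) y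
    exact (congrArg Subtype.val this).symm
  have hAne : A ≠ ⊥ := by
    have h1 : Nontrivial (Subgroup.center P) := hPp.center_nontrivial
    intro hb
    have h2 : Subgroup.center P = ⊥ := (Subgroup.map_eq_bot_iff_of_injective _
      (Subgroup.subtype_injective _)).1 hb
    rw [Subgroup.nontrivial_iff_ne_bot] at h1
    exact h1 h2
  obtain ⟨C, hAC, V, i1, i2, i3, ρ, hρ, hz⟩ :=
    rep_input' (fitting G) hnil hmax p P hPn hPp A hAP hAab
  obtain ⟨a, ha1⟩ := Subgroup.ne_bot_iff_exists_ne_one.1 hAne
  have haA : (a : G ⧸ fitting G) ∈ A := a.2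
  obtain ⟨g, hg⟩ := QuotientGroup.mk'_surjective (fitting G) (a : G ⧸ fitting G)
  have hgK : QuotientGroup.mk' (fitting G) g ∈ K := by
    rw [hg]
    exact Subgroup.map_subtype_le _ (hAP haA)
  apply h g hgK V ρ hρ
  apply hz
  intro t ht
  rw [hg] at ht
  have h1 : t * (a : G ⧸ fitting G) * t⁻¹ ∈ A ⊓ C := ⟨hAn.conj_mem _ haA t, ht⟩
  rw [hAC, Subgroup.mem_bot] at h1
  apply ha1
  apply Subtype.ext
  have h2 : (a : G ⧸ fitting G) = t⁻¹ * (t * (a : G ⧸ fitting G) * t⁻¹) * t := by group
  rw [h2, h1]
  simp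

/-- A finite group with trivial Fitting subgroup has no nontrivial solvable normal subgroup. -/
theorem solvable_bot {Q : Type} [Group Q] [Finite Q] (h : fitting Q = ⊥) (R : Subgroup Q)
    (hR : R.Normal) (hs : Group.IsSolvable R) : R = ⊥ := by
  classical
  obtain ⟨-, -, hmax⟩ := fitting_spec Q
  have hsol : ∃ n, derivedSeries R n = ⊥ := (Group.isSolvable_def R).1 hs
  have h0 := Nat.find_spec hsol
  set n := Nat.find hsol with hn
  rcases Nat.eq_zero_or_pos n with hz | hpos
  · rw [hz, derivedSeries_zero] at h0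
    have : Subsingleton R := Subgroup.subsingleton_iff.1 (subsingleton_of_bot_eq_top h0.symm)
    exact Subgroup.eq_bot_of_subsingleton R
  · exfalso
    obtain ⟨k, hk⟩ : ∃ k, n = k + 1 := ⟨n - 1, by omega⟩
    rw [hk, derivedSeries_succ] at h0
    have h1 : derivedSeries R k ≠ ⊥ := Nat.find_min hsol (by omega)
    have hn' : ((derivedSeries R k).map R.subtype).Normal :=
      ConjAct.normal_of_characteristic_of_normal
    have h3' : Group.IsNilpotent (derivedSeries R k) := by
      rw [Subgroup.isNilpotent_iff_lowerCentralSeries]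
      refine ⟨1, ?_⟩
      rw [Subgroup.lowerCentralSeries_succ, Subgroup.lowerCentralSeries_zero, h0]
    have h3 : Group.IsNilpotent ((derivedSeries R k).map R.subtype) :=
      (Group.isNilpotent_congr ((derivedSeries R k).equivMapOfInjective R.subtype
        (Subgroup.subtype_injective _))).1 h3'
    have h4 := hmax _ hn' h3
    rw [h, le_bot_iff] at h4
    exact h1 ((Subgroup.map_eq_bot_iff_of_injective _ (Subgroup.subtype_injective _)).1 h4)

/-- the index of the Fitting subgroup is bounded in terms of the zeros and of the index of a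
solvable normal subgroup -/
theorem index_bound (c m : ℕ) : ∃ b : ℕ, ∀ (G : Type) [Group G] [Finite G] (R : Subgroup G),
    R.Normal → Group.IsSolvable R → R.index ≤ c → ZB G m → (fitting G).index ≤ b := by
  have step : ∀ (m b : ℕ), (∀ (G : Type) [Group G] [Finite G] (R : Subgroup G),
      R.Normal → Group.IsSolvable R → R.index ≤ c →
      (∀ (V : Type) [AddCommGroup V] [Module ℂ V] [FiniteDimensional ℂ V]
        (ρ : Representation ℂ G V), ρ.IsIrreducible → cl {g : G | ρ.character g = 0} < m) →
      (fitting G).index ≤ b) →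
      ∃ b' : ℕ, ∀ (G : Type) [Group G] [Finite G] (R : Subgroup G),
        R.Normal → Group.IsSolvable R → R.index ≤ c →
        ZB G m → (fitting G).index ≤ b' := by
    intro m b hb
    let b2 := orbB m b ^ orbB m b * b
    refine ⟨max c (orbB m b2 ^ orbB m b2 * b2), ?_⟩
    intro G _ _ R hRn hRs hRc hZ
    have i1 : (fitting G).Normal := (fitting_spec G).1
    let Q := G ⧸ fitting G
    have i2 : (fitting Q).Normal := (fitting_spec Q).1
    have hZQ : ZB Q m := hZ.quot (QuotientGroup.mk' _) (QuotientGroup.mk'_surjective _)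
    let Q2 := Q ⧸ fitting Q
    let f : G →* Q2 := (QuotientGroup.mk' (fitting Q)).comp (QuotientGroup.mk' (fitting G))
    have hf : Function.Surjective f :=
      (QuotientGroup.mk'_surjective _).comp (QuotientGroup.mk'_surjective _)
    by_cases hcase : ∃ (V : Type) (_ : AddCommGroup V) (_ : Module ℂ V)
        (_ : FiniteDimensional ℂ V) (ρ : Representation ℂ Q2 V), ρ.IsIrreducible ∧
          m ≤ cl {g : Q2 | ρ.character g = 0}
    · obtain ⟨V, _, _, _, ρ, hρ, hm⟩ := hcase
      have h1 : C1 G f.ker := C1_of_attained hZ f hf ρ hρ hm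
      have h3 : fitting Q = ⊥ := by
        apply fit2_bot
        intro g hg
        apply h1.nonvanishing
        exact (QuotientGroup.eq_one_iff _).2 hg
      have h4 : R.map (QuotientGroup.mk' (fitting G)) = ⊥ := by
        apply solvable_bot h3
        · exact hRn.map _ (QuotientGroup.mk'_surjective _)
        · exact Group.isSolvable_of_surjective (f := (QuotientGroup.mk' (fitting G)).subgroupMap R)
            ((QuotientGroup.mk' (fitting G)).subgroupMap_surjective R)
      have h5 : R ≤ fitting G := by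
        rw [Subgroup.map_eq_bot_iff, QuotientGroup.ker_mk'] at h4
        exact h4
      exact ((Subgroup.index_antitone h5).trans hRc).trans (le_max_left _ _)
    · push Not at hcase
      have hQ2 : (fitting Q2).index ≤ b := by
        apply hb Q2 (R.map f) (hRn.map _ hf)
        · exact Group.isSolvable_of_surjective (f := f.subgroupMap R)
            (f.subgroupMap_surjective R)
        · exact (Nat.le_of_dvd (Nat.pos_of_ne_zero Subgroup.index_ne_zero_of_finite)
            (Subgroup.index_map_dvd R hf)).trans hRc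
        · intro V _ _ _ ρ hρ
          exact hcase V inferInstance inferInstance inferInstance ρ hρ
      have hQ1 : (fitting Q).index ≤ b2 := index_step m b hZQ hQ2
      exact (index_step m b2 hZ hQ1).trans (le_max_right _ _)
  induction m with
  | zero =>
    apply step 0 0
    intro G _ _ R _ _ _ h
    exfalso
    obtain ⟨V, _, _, _, ρ, hρ, -⟩ := exists_char_over (G := G) ⊥ 1
    exact absurd (h V ρ hρ) (Nat.not_lt_zero _)
  | succ m ih =>
    obtain ⟨b, hb⟩ := ih
    apply step (m + 1) b
    intro G _ _ R h1 h2 h3 h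
    refine hb G R h1 h2 h3 ?_
    intro V _ _ _ ρ hρ
    exact Nat.lt_succ_iff.1 (h V ρ hρ)

end Run7.h702.ZF
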